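import Pool.Agent.Helper591.TC.IfaceDefs

/-! # BASE block of MP_e53872_an (helper376): base averages are Cauchy, given FW and THEOREM D -/

open scoped ComplexConjugate InnerProductSpace
open Filter Topology

namespace Pool.TC

section bavg
variable {ι κ : Type} [Fintype ι] [Fintype κ] {V : Type*} [AddCommGroup V] [Module ℝ V]

theorem base_avg_sub (f g : ι → V) : avg (fun i => f i - g i) = avg f - avg g := by
  simp only [avg, Finset.sum_sub_distrib, smul_sub]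

theorem base_avg_const [Nonempty ι] (v : V) : avg (fun _ : ι => v) = v := by
  simp only [avg, Finset.sum_const, Finset.card_univ]
  rw [← Nat.cast_smul_eq_nsmul ℝ, smul_smul, inv_mul_cancel₀, one_smul]
  exact Nat.cast_ne_zero.2 Fintype.card_ne_zero

theorem base_avg_comm (f : ι → κ → V) :
    avg (fun i => avg fun j => f i j) = avg fun j => avg fun i => f i j := by
  simp only [avg, ← Finset.smul_sum]
  rw [Finset.sum_comm, smul_comm]

theorem base_avg_prod (f : ι × κ → V) : avg f = avg fun i => avg fun j => f (i, j) := by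
  simp only [avg, ← Finset.smul_sum]
  rw [smul_smul, Fintype.sum_prod_type, Fintype.card_prod]
  congr 1
  push_cast
  rw [mul_inv]

theorem base_avg_equiv (e : ι ≃ κ) (f : κ → V) : avg (fun i => f (e i)) = avg f := by
  simp only [avg]
  rw [Equiv.sum_comp e f, Fintype.card_congr e]

theorem base_avg_fst [Nonempty κ] (f : ι → V) : avg (fun p : ι × κ => f p.1) = avg f := by
  rw [base_avg_prod]
  congr 1
  funext i
  exact base_avg_const (f i)

theorem base_avg_snd [Nonempty ι] (f : κ → V) : avg (fun p : ι × κ => f p.2) = avg f := by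
  rw [base_avg_prod]
  exact base_avg_const (avg f)

theorem base_avg_mono (f g : ι → ℝ) (h : ∀ i, f i ≤ g i) : avg f ≤ avg g := by
  simp only [avg, smul_eq_mul]
  exact mul_le_mul_of_nonneg_left (Finset.sum_le_sum fun i _ => h i) (by positivity)

theorem base_avg_le [Nonempty ι] (f : ι → ℝ) (C : ℝ) (h : ∀ i, f i ≤ C) : avg f ≤ C := by
  have h1 := base_avg_mono f (fun _ => C) h
  rwa [base_avg_const] at h1

theorem base_avg_sq_le [Nonempty ι] (f : ι → ℝ) : (avg f) ^ 2 ≤ avg fun i => f i ^ 2 := by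
  simp only [avg, smul_eq_mul]
  have h1 : (∑ i, f i) ^ 2 ≤ (Fintype.card ι : ℝ) * ∑ i, f i ^ 2 := by
    have := sq_sum_le_card_mul_sum_sq (s := (Finset.univ : Finset ι)) (f := f)
    simpa using this
  have hc : (0 : ℝ) < (Fintype.card ι : ℝ) := Nat.cast_pos.2 Fintype.card_pos
  rw [mul_pow]
  calc ((Fintype.card ι : ℝ)⁻¹) ^ 2 * (∑ i, f i) ^ 2
      ≤ ((Fintype.card ι : ℝ)⁻¹) ^ 2 * ((Fintype.card ι : ℝ) * ∑ i, f i ^ 2) :=
        mul_le_mul_of_nonneg_left h1 (by positivity)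
    _ = (Fintype.card ι : ℝ)⁻¹ * ∑ i, f i ^ 2 := by
        field_simp

theorem base_norm_avg_le {V : Type*} [SeminormedAddCommGroup V] [NormedSpace ℝ V] (f : ι → V) :
    ‖avg f‖ ≤ avg fun i => ‖f i‖ := by
  simp only [avg, smul_eq_mul]
  rw [norm_smul, Real.norm_eq_abs, abs_of_nonneg (by positivity : (0 : ℝ) ≤ (Fintype.card ι : ℝ)⁻¹)]
  exact mul_le_mul_of_nonneg_left (norm_sum_le _ _) (by positivity)

theorem base_norm_avg_le_of {V : Type*} [SeminormedAddCommGroup V] [NormedSpace ℝ V] [Nonempty ι]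
    (f : ι → V) (C : ℝ) (h : ∀ i, ‖f i‖ ≤ C) : ‖avg f‖ ≤ C :=
  (base_norm_avg_le f).trans (base_avg_le _ C h)

end bavg

section inj
variable {M : Type} [Fintype M] [DecidableEq M] {V : Type*} [AddCommGroup V] [Module ℝ V]

theorem base_avg_inj {M' : Type} [Fintype M'] [DecidableEq M'] (i : M' ↪ M) {κ : M → Type}
    [∀ m, Fintype (κ m)] [∀ m, Nonempty (κ m)] (F : ((m : M') → κ (i m)) → V) :
    avg (fun w : (m : M) → κ m => F fun m => w (i m)) = avg F := by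
  classical
  let e1 := Equiv.piEquivPiSubtypeProd (fun m => m ∈ Set.range i) κ
  have s1 : avg (fun w : (m : M) → κ m => F fun m => w (i m)) =
      avg (fun q : ((m : {m // m ∈ Set.range i}) → κ m) × ((m : {m // m ∉ Set.range i}) → κ m) =>
        F (fun m => q.1 ⟨i m, ⟨m, rfl⟩⟩)) :=
    base_avg_equiv e1 (fun q : ((m : {m // m ∈ Set.range i}) → κ m) ×
      ((m : {m // m ∉ Set.range i}) → κ m) => F (fun m => q.1 ⟨i m, ⟨m, rfl⟩⟩))
  have s2 := base_avg_fst (κ := (m : {m // m ∉ Set.range i}) → κ m)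
    (fun a : ((m : {m // m ∈ Set.range i}) → κ m) => F (fun m => a ⟨i m, ⟨m, rfl⟩⟩))
  have s3 : avg (fun a : ((m : {m // m ∈ Set.range i}) → κ m) =>
      F (fun m => a ⟨i m, ⟨m, rfl⟩⟩)) = avg F :=
    base_avg_equiv (Equiv.piCongrLeft (fun b : {m // m ∈ Set.range i} => κ b.1)
      (Equiv.ofInjective i i.injective)).symm F
  rw [s1, s2, s3]

/-- uniform residues: `r mod b` is uniform when `b ∣ a` -/
theorem base_mod (a b : M → ℕ) (h : ∀ m, b m ∣ a m) (ha : ∀ m, 0 < a m) (G : (M → ℕ) → V) :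
    avg (fun r : (m : M) → Fin (a m) => G fun m => (r m : ℕ) % b m) =
      avg fun r : (m : M) → Fin (b m) => G fun m => (r m : ℕ) := by
  have hc : ∃ c : M → ℕ, a = fun m => c m * b m := by
    choose c hc using h
    exact ⟨c, funext fun m => by rw [hc m, mul_comm]⟩
  obtain ⟨c, rfl⟩ := hc
  have hcpos : ∀ m, 0 < c m := fun m => Nat.pos_of_mul_pos_right (ha m)
  have : Nonempty ((m : M) → Fin (c m)) := ⟨fun m => ⟨0, hcpos m⟩⟩
  rw [← base_avg_equiv (Equiv.piCongrRight fun m => (finProdFinEquiv : Fin (c m) × Fin (b m) ≃ _)),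
    ← base_avg_equiv (Equiv.arrowProdEquivProdArrow M (fun m => Fin (c m)) (fun m => Fin (b m))).symm]
  rw [← base_avg_snd (ι := (m : M) → Fin (c m))
    (fun r : (m : M) → Fin (b m) => G fun m => (r m : ℕ))]
  congr 1
  funext p
  congr 1
  funext m
  show ((p.2 m : ℕ) + b m * (p.1 m : ℕ)) % b m = (p.2 m : ℕ)
  rw [Nat.add_mul_mod_self_left]
  exact Nat.mod_eq_of_lt (p.2 m).2

end inj

section BV

/-- sample space of one level -/
abbrev base_S (v : ℕ) : Type := Fin (Q v) × Bool × Fin (Hw v (Q v))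

/-- the digit with bit `d`, scale `k` and window variable `r` -/
def base_dg (v : ℕ) (s : base_S v) : ℤ :=
  (if s.2.1 = true then 1 else 0) + 3 * (((s.2.2 : ℕ) % Hw v ((s.1 : ℕ) + 1) : ℕ) : ℤ)

/-- average over the samples of the levels `v m`, `m : M` -/
noncomputable def base_BS {M : Type} [Fintype M] [DecidableEq M] (L : ℕ → ℤ) (v : M → ℕ)
    {V : Type*} [AddCommGroup V] [Module ℝ V] (F : ℤ → V) : V :=
  avg fun s : (m : M) → base_S (v m) => F (∑ m : M, base_dg (v m) (s m) * L (v m))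

variable {V : Type*} [AddCommGroup V] [Module ℝ V]

theorem base_BS_sum {M₁ M₂ : Type} [Fintype M₁] [DecidableEq M₁] [Fintype M₂] [DecidableEq M₂]
    (L : ℕ → ℤ) (v₁ : M₁ → ℕ) (v₂ : M₂ → ℕ) (F : ℤ → V) :
    base_BS L (Sum.elim v₁ v₂) F =
      base_BS L v₁ fun a => base_BS L v₂ fun b => F (a + b) := by
  unfold base_BS
  rw [← base_avg_equiv (Equiv.sumPiEquivProdPi fun m : M₁ ⊕ M₂ => base_S (Sum.elim v₁ v₂ m)).symm,
    base_avg_prod]
  refine congrArg avg (funext fun s₁ => congrArg avg (funext fun s₂ => congrArg F ?_))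
  exact Fintype.sum_sum_type _

theorem base_BS_equiv {M M' : Type} [Fintype M] [DecidableEq M] [Fintype M'] [DecidableEq M']
    (L : ℕ → ℤ) (e : M ≃ M') (v : M' → ℕ) (F : ℤ → V) :
    base_BS L (fun m => v (e m)) F = base_BS L v F := by
  unfold base_BS
  rw [← base_avg_equiv (Equiv.piCongrLeft (fun m' : M' => base_S (v m')) e)]
  refine congrArg avg (funext fun s => congrArg F ?_)
  rw [← Equiv.sum_comp e]
  refine Finset.sum_congr rfl fun m _ => ?_
  rw [Equiv.piCongrLeft_apply_apply]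

theorem base_BS_prod {M : Type} [Fintype M] [DecidableEq M] (L : ℕ → ℤ) (v : M → ℕ) (F : ℤ → V) :
    base_BS L v F = avg fun p : ((m : M) → Fin (Q (v m))) × (M → Bool) ×
      ((m : M) → Fin (Hw (v m) (Q (v m)))) =>
      F (∑ m : M, base_dg (v m) (p.1 m, p.2.1 m, p.2.2 m) * L (v m)) := by
  unfold base_BS
  rw [← base_avg_equiv (Equiv.arrowProdEquivProdArrow M (fun m => Fin (Q (v m)))
    (fun m => Bool × Fin (Hw (v m) (Q (v m))))).symm]
  rw [← base_avg_equiv ((Equiv.refl ((m : M) → Fin (Q (v m)))).prodCongr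
    (Equiv.arrowProdEquivProdArrow M (fun m => Bool) (fun m => Fin (Hw (v m) (Q (v m))))).symm)]
  rfl

end BV

section sys
variable {A : Type} [CommRing A] [StarRing A] [Algebra ℂ A] [StarModule ℂ A] [PSys A]

/-- the integrand -/
noncomputable def base_F (f₁ f₂ : A) (a : ℤ) : A := PSys.tau a f₁ * PSys.tau (2 * a) f₂

theorem base_F_add (f₁ f₂ : A) (a b : ℤ) :
    base_F f₁ f₂ (a + b) = base_F (PSys.tau a f₁) (PSys.tau (2 * a) f₂) b := by
  unfold base_F
  rw [← PSys.tau_add, ← PSys.tau_add, add_comm b a, mul_add, add_comm (2 * b)]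

theorem base_baseAvg (L : ℕ → ℤ) (N : ℕ) (f₁ f₂ : A) :
    baseAvg L N f₁ f₂ = base_BS L (fun m : Fin N => (m : ℕ)) (base_F f₁ f₂) := by
  rw [base_BS_prod]
  rfl

theorem base_low {V : Type*} [AddCommGroup V] [Module ℝ V] (L : ℕ → ℤ) (N : ℕ) (H : ℤ → V) :
    base_BS L (fun m : Fin N => (m : ℕ)) H = avg fun ω : Om N => H (aval L ω) := by
  rw [base_BS_prod]
  rfl

/-- splitting the levels `< N` at `m₀` -/
def base_e {m₀ N : ℕ} (h : m₀ ≤ N) : Fin m₀ ⊕ {x // x ∈ Finset.Ico m₀ N} ≃ Fin N where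
  toFun := Sum.elim (Fin.castLE h) fun x => ⟨x.1, (Finset.mem_Ico.1 x.2).2⟩
  invFun k := if hk : (k : ℕ) < m₀ then Sum.inl ⟨k, hk⟩ else
    Sum.inr ⟨k, Finset.mem_Ico.2 ⟨not_lt.1 hk, k.2⟩⟩
  left_inv := by
    rintro (x | x)
    · simp
    · have := (Finset.mem_Ico.1 x.2).1
      simp [not_lt.2 this]
  right_inv := by
    intro k
    by_cases hk : (k : ℕ) < m₀
    · simp [hk]
    · simp [hk]

theorem base_split {V : Type*} [AddCommGroup V] [Module ℝ V] (L : ℕ → ℤ) {m₀ N : ℕ} (h : m₀ ≤ N)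
    (F : ℤ → V) :
    base_BS L (fun m : Fin N => (m : ℕ)) F =
      base_BS L (fun m : Fin m₀ => (m : ℕ)) fun a =>
        base_BS L (fun m : {x // x ∈ Finset.Ico m₀ N} => (m : ℕ)) fun b => F (a + b) := by
  rw [← base_BS_equiv L (base_e h), ← base_BS_sum]
  congr 1
  funext m
  rcases m with m | m <;> rfl

theorem base_AV (L : ℕ → ℤ) (I : Finset ℕ) (g₁ g₂ : A) :
    base_BS L (fun m : {x // x ∈ I} => (m : ℕ)) (base_F g₁ g₂) =
      avg fun u : (m : I) → Fin (Q m) => AV L I I (kp I 0 u) g₁ g₂ := by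
  rw [base_BS_prod, base_avg_prod]
  refine congrArg avg (funext fun u => ?_)
  rw [base_avg_prod]
  unfold AV
  refine congrArg avg (funext fun d => ?_)
  have hk : ∀ m : I, kp I 0 u m = (u m : ℕ) + 1 := by
    intro m
    simp [kp]
  have h1 := base_mod (V := A) (fun m : I => Hw m (Q m)) (fun m : I => Hw m (kp I 0 u m))
    (fun m => pow_dvd_pow _ (by rw [hk m]; exact Nat.succ_le_succ (u m).2))
    (fun m => pow_pos (pow_pos (by norm_num) _) _)
    (fun w => base_F g₁ g₂ (∑ m : I, ((if d m = true then 1 else 0) + 3 * ((w m : ℕ) : ℤ)) * L m))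
  refine Eq.trans ?_ (h1.trans ?_)
  · refine congrArg avg (funext fun r => congrArg _ (Finset.sum_congr rfl fun m _ => ?_))
    unfold base_dg
    beta_reduce
    rw [hk m]
  · refine congrArg avg (funext fun r => ?_)
    unfold base_F
    simp

/-- the bits of the levels `D` -/
def base_lin (L : ℕ → ℤ) (D : Finset ℕ) (d : D → Bool) : ℤ :=
  ∑ m : D, (if d m = true then 1 else 0) * L m

theorem base_sum_D (L : ℕ → ℤ) (I D : Finset ℕ) (h : D ⊆ I) (d : I → Bool) (c : I → ℤ) :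
    ∑ m : I, ((if (m : ℕ) ∈ D ∧ d m = true then 1 else 0) + 3 * c m) * L m =
      base_lin L D (fun m => d ⟨m, h m.2⟩) +
        ∑ m : I, ((if (m : ℕ) ∈ (∅ : Finset ℕ) ∧ d m = true then 1 else 0) + 3 * c m) * L m := by
  have h1 : base_lin L D (fun m => d ⟨m, h m.2⟩) =
      ∑ m : I, (if (m : ℕ) ∈ D ∧ d m = true then 1 else 0) * L m := by
    unfold base_lin
    have e1 : ∀ m : I, (if (m : ℕ) ∈ D ∧ d m = true then (1 : ℤ) else 0) * L m =
        if (m : ℕ) ∈ D then (if d m = true then (1 : ℤ) else 0) * L m else 0 := by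
      intro m
      by_cases hm : (m : ℕ) ∈ D <;> simp [hm]
    rw [Finset.sum_congr rfl fun m _ => e1 m, ← Finset.sum_filter]
    refine Finset.sum_bij (fun (m : D) _ => (⟨m, h m.2⟩ : I)) ?_ ?_ ?_ ?_
    · intro m _
      simp [m.2]
    · intro a _ b _ hab
      exact Subtype.ext (congrArg (fun x : I => (x : ℕ)) hab)
    · intro b hb
      exact ⟨⟨b, (Finset.mem_filter.1 hb).2⟩, Finset.mem_univ _, rfl⟩
    · intro m _
      rfl
  rw [h1, ← Finset.sum_add_distrib]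
  refine Finset.sum_congr rfl fun m _ => ?_
  simp only [Finset.notMem_empty, false_and, if_false]
  ring

theorem base_AV_D (L : ℕ → ℤ) (I D : Finset ℕ) (h : D ⊆ I) (κ : ℕ → ℕ) (g₁ g₂ : A) :
    AV L I D κ g₁ g₂ = avg fun d : D → Bool =>
      AV L I ∅ κ (PSys.tau (base_lin L D d) g₁) (PSys.tau (2 * base_lin L D d) g₂) := by
  have hne : Nonempty (I → Bool) := ⟨fun _ => true⟩
  have e0 : ∀ d' : D → Bool,
      AV L I ∅ κ (PSys.tau (base_lin L D d') g₁) (PSys.tau (2 * base_lin L D d') g₂) =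
      avg fun r : (m : I) → Fin (Hw m (κ m)) => base_F g₁ g₂ (base_lin L D d' +
        ∑ m : I, (0 + 3 * ((r m : ℕ) : ℤ)) * L m) := by
    intro d'
    unfold AV
    have e1 : ∀ d : I → Bool, (avg fun r : (m : I) → Fin (Hw m (κ m)) =>
        PSys.tau (∑ m : I, ((if (m : ℕ) ∈ (∅ : Finset ℕ) ∧ d m = true then 1 else 0) +
          3 * ((r m : ℕ) : ℤ)) * L m) (PSys.tau (base_lin L D d') g₁) *
        PSys.tau (2 * ∑ m : I, ((if (m : ℕ) ∈ (∅ : Finset ℕ) ∧ d m = true then 1 else 0) +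
          3 * ((r m : ℕ) : ℤ)) * L m) (PSys.tau (2 * base_lin L D d') g₂)) =
        avg fun r : (m : I) → Fin (Hw m (κ m)) => base_F g₁ g₂ (base_lin L D d' +
        ∑ m : I, (0 + 3 * ((r m : ℕ) : ℤ)) * L m) := by
      intro d
      refine congrArg avg (funext fun r => ?_)
      rw [base_F_add]
      unfold base_F
      simp only [Finset.notMem_empty, false_and, if_false]
    simp only [e1]
    exact base_avg_const _
  simp only [e0]
  let i : D ↪ I := ⟨fun m => ⟨m, h m.2⟩, fun a b hab => Subtype.ext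
    (congrArg (fun x : I => (x : ℕ)) hab)⟩
  have e2 := base_avg_inj (V := A) i (κ := fun _ => Bool)
    (fun d' => avg fun r : (m : I) → Fin (Hw m (κ m)) => base_F g₁ g₂ (base_lin L D d' +
        ∑ m : I, (0 + 3 * ((r m : ℕ) : ℤ)) * L m))
  refine Eq.trans ?_ e2
  unfold AV
  refine congrArg avg (funext fun d => congrArg avg (funext fun r => ?_))
  rw [base_sum_D L I D h d (fun m => ((r m : ℕ) : ℤ))]
  simp only [Finset.notMem_empty, false_and, if_false]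
  rfl

theorem base_decomp (L : ℕ → ℤ) {m₀ N : ℕ} (h : m₀ ≤ N) (f₁ f₂ : A) :
    baseAvg L N f₁ f₂ = avg fun ω : Om m₀ => avg fun u : (m : Finset.Ico m₀ N) → Fin (Q m) =>
      AV L (Finset.Ico m₀ N) (Finset.Ico m₀ N) (kp _ 0 u)
        (PSys.tau (aval L ω) f₁) (PSys.tau (2 * aval L ω) f₂) := by
  rw [base_baseAvg, base_split L h, base_low]
  refine congrArg avg (funext fun ω => ?_)
  rw [← base_AV]
  refine congrArg _ (funext fun b => ?_)
  exact base_F_add _ _ _ _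

theorem base_nonempty_pi {M : Type} (v : M → ℕ) : Nonempty ((m : M) → Fin (Q (v m))) :=
  ⟨fun m => ⟨0, pow_pos (by norm_num) _⟩⟩

theorem base_nonempty_Om (N : ℕ) : Nonempty (Om N) :=
  ⟨(fun m => ⟨0, pow_pos (by norm_num) _⟩, fun _ => true,
    fun m => ⟨0, pow_pos (pow_pos (by norm_num) _) _⟩)⟩

/-- BASE from FW and THEOREM D -/
theorem base_cauchy_of (L : ℕ → ℤ)
    (hfw : ∀ (m₀ : ℕ) (f₁ f₂ : A), f₁ ∈ PSys.ball → f₂ ∈ PSys.ball → ∀ ε : ℝ, 0 < ε →
      ∃ N₀, ∀ N ≥ N₀, ∀ N' ≥ N₀,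
      ‖(avg fun u : (m : Finset.Ico m₀ N) → Fin (Q m) =>
          AV L (Finset.Ico m₀ N) ∅ (kp _ 0 u) f₁ f₂) -
        (avg fun u : (m : Finset.Ico m₀ N') → Fin (Q m) =>
          AV L (Finset.Ico m₀ N') ∅ (kp _ 0 u) f₁ f₂)‖ ≤ ε)
    (hD : ∀ ε : ℝ, 0 < ε →
      ∃ m₁ : ℕ, ∀ m₀ ≥ m₁, ∀ f₁ ∈ (PSys.ball : Set A), ∀ f₂ ∈ (PSys.ball : Set A),
      ∃ n₀ ≥ m₀, ∀ n ≥ n₀, ∀ N ≥ n,
        (avg fun u : (m : Finset.Ico m₀ N) → Fin (Q m) =>
          ‖AV L (Finset.Ico m₀ N) (Finset.Ico m₀ N) (kp _ 0 u) f₁ f₂ -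
            AV L (Finset.Ico m₀ N) (Finset.Ico m₀ n) (kp _ 0 u) f₁ f₂‖ ^ 2) ≤ ε)
    (f₁ f₂ : A) (h₁ : f₁ ∈ PSys.ball) (h₂ : f₂ ∈ PSys.ball)
    (ε : ℝ) (hε : 0 < ε) :
    ∃ N₀, ∀ N ≥ N₀, ∀ N' ≥ N₀, ‖baseAvg L N f₁ f₂ - baseAvg L N' f₁ f₂‖ ≤ ε := by
  classical
  obtain ⟨m₀, hm₀⟩ := hD ((ε / 3) ^ 2) (by positivity)
  have hg : ∀ ω : Om m₀, ∃ n₀ ≥ m₀, ∀ n ≥ n₀, ∀ N ≥ n,
      (avg fun u : (m : Finset.Ico m₀ N) → Fin (Q m) =>
          ‖AV L (Finset.Ico m₀ N) (Finset.Ico m₀ N) (kp _ 0 u)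
            (PSys.tau (aval L ω) f₁) (PSys.tau (2 * aval L ω) f₂) -
            AV L (Finset.Ico m₀ N) (Finset.Ico m₀ n) (kp _ 0 u)
            (PSys.tau (aval L ω) f₁) (PSys.tau (2 * aval L ω) f₂)‖ ^ 2) ≤ (ε / 3) ^ 2 :=
    fun ω => hm₀ m₀ le_rfl _ (PSys.tau_mem _ _ h₁) _ (PSys.tau_mem _ _ h₂)
  choose n₀ hn₀ hn using hg
  obtain ⟨n, hnm, hnn⟩ : ∃ n, m₀ ≤ n ∧ ∀ ω, n₀ ω ≤ n := by
    refine ⟨m₀ + Finset.univ.sup n₀, Nat.le_add_right _ _, fun ω => ?_⟩
    exact (Finset.le_sup (f := n₀) (Finset.mem_univ ω)).trans (Nat.le_add_left _ _)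
  have hf := fun (ω : Om m₀) (d : {x // x ∈ Finset.Ico m₀ n} → Bool) =>
    hfw m₀ (PSys.tau (base_lin L (Finset.Ico m₀ n) d) (PSys.tau (aval L ω) f₁))
      (PSys.tau (2 * base_lin L (Finset.Ico m₀ n) d) (PSys.tau (2 * aval L ω) f₂))
      (PSys.tau_mem _ _ (PSys.tau_mem _ _ h₁)) (PSys.tau_mem _ _ (PSys.tau_mem _ _ h₂))
      (ε / 3) (by positivity)
  choose K hK using hf
  obtain ⟨N₀, hN₀n, hN₀⟩ : ∃ N₀, n ≤ N₀ ∧ ∀ ω d, K ω d ≤ N₀ := by
    refine ⟨n + Finset.univ.sup (fun p : Om m₀ × ({x // x ∈ Finset.Ico m₀ n} → Bool) => K p.1 p.2),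
      Nat.le_add_right _ _, fun ω d => ?_⟩
    exact (Finset.le_sup (f := fun p : Om m₀ × ({x // x ∈ Finset.Ico m₀ n} → Bool) => K p.1 p.2)
      (Finset.mem_univ (ω, d))).trans (Nat.le_add_left _ _)
  -- notation
  let X : ℕ → Om m₀ → A := fun N ω => avg fun u : (m : Finset.Ico m₀ N) → Fin (Q m) =>
      AV L (Finset.Ico m₀ N) (Finset.Ico m₀ N) (kp _ 0 u)
        (PSys.tau (aval L ω) f₁) (PSys.tau (2 * aval L ω) f₂)
  let Y : ℕ → Om m₀ → A := fun N ω => avg fun u : (m : Finset.Ico m₀ N) → Fin (Q m) =>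
      AV L (Finset.Ico m₀ N) (Finset.Ico m₀ n) (kp _ 0 u)
        (PSys.tau (aval L ω) f₁) (PSys.tau (2 * aval L ω) f₂)
  have hXY : ∀ N, n ≤ N → ∀ ω, ‖X N ω - Y N ω‖ ≤ ε / 3 := by
    intro N hN ω
    have hne := base_nonempty_pi (fun m : {x // x ∈ Finset.Ico m₀ N} => (m : ℕ))
    have h3 := hn ω n (hnn ω) N hN
    have h4 : X N ω - Y N ω = avg fun u : (m : Finset.Ico m₀ N) → Fin (Q m) =>
        (AV L (Finset.Ico m₀ N) (Finset.Ico m₀ N) (kp _ 0 u)
            (PSys.tau (aval L ω) f₁) (PSys.tau (2 * aval L ω) f₂) -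
            AV L (Finset.Ico m₀ N) (Finset.Ico m₀ n) (kp _ 0 u)
            (PSys.tau (aval L ω) f₁) (PSys.tau (2 * aval L ω) f₂)) := by
      rw [base_avg_sub]
    have h5 := base_norm_avg_le (fun u : (m : Finset.Ico m₀ N) → Fin (Q m) =>
        (AV L (Finset.Ico m₀ N) (Finset.Ico m₀ N) (kp _ 0 u)
            (PSys.tau (aval L ω) f₁) (PSys.tau (2 * aval L ω) f₂) -
            AV L (Finset.Ico m₀ N) (Finset.Ico m₀ n) (kp _ 0 u)
            (PSys.tau (aval L ω) f₁) (PSys.tau (2 * aval L ω) f₂)))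
    have h6 := base_avg_sq_le (fun u : (m : Finset.Ico m₀ N) → Fin (Q m) =>
        ‖(AV L (Finset.Ico m₀ N) (Finset.Ico m₀ N) (kp _ 0 u)
            (PSys.tau (aval L ω) f₁) (PSys.tau (2 * aval L ω) f₂) -
            AV L (Finset.Ico m₀ N) (Finset.Ico m₀ n) (kp _ 0 u)
            (PSys.tau (aval L ω) f₁) (PSys.tau (2 * aval L ω) f₂))‖)
    rw [h4]
    refine h5.trans ?_
    exact le_of_sq_le_sq (h6.trans h3) (by positivity)
  have hYZ : ∀ N ω, n ≤ N → Y N ω = avg fun d : {x // x ∈ Finset.Ico m₀ n} → Bool =>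
      avg fun u : (m : Finset.Ico m₀ N) → Fin (Q m) => AV L (Finset.Ico m₀ N) ∅ (kp _ 0 u)
        (PSys.tau (base_lin L (Finset.Ico m₀ n) d) (PSys.tau (aval L ω) f₁))
        (PSys.tau (2 * base_lin L (Finset.Ico m₀ n) d) (PSys.tau (2 * aval L ω) f₂)) := by
    intro N ω hN
    rw [base_avg_comm]
    refine congrArg avg (funext fun u => ?_)
    exact base_AV_D L _ _ (Finset.Ico_subset_Ico_right hN) _ _ _
  have hYY : ∀ N, N₀ ≤ N → ∀ N', N₀ ≤ N' → ∀ ω, ‖Y N ω - Y N' ω‖ ≤ ε / 3 := by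
    intro N hN N' hN' ω
    rw [hYZ N ω (hN₀n.trans hN), hYZ N' ω (hN₀n.trans hN'), ← base_avg_sub]
    have : Nonempty ({x // x ∈ Finset.Ico m₀ n} → Bool) := ⟨fun _ => true⟩
    refine base_norm_avg_le_of _ _ fun d => ?_
    exact hK ω d N ((hN₀ ω d).trans hN) N' ((hN₀ ω d).trans hN')
  refine ⟨N₀, fun N hN N' hN' => ?_⟩
  have hmN : m₀ ≤ N := hnm.trans (hN₀n.trans hN)
  have hmN' : m₀ ≤ N' := hnm.trans (hN₀n.trans hN')
  rw [base_decomp L hmN, base_decomp L hmN', ← base_avg_sub]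
  have := base_nonempty_Om m₀
  refine base_norm_avg_le_of _ _ fun ω => ?_
  have e : X N ω - X N' ω = (X N ω - Y N ω) + (Y N ω - Y N' ω) - (X N' ω - Y N' ω) := by abel
  show ‖X N ω - X N' ω‖ ≤ ε
  rw [e]
  have a1 := hXY N (hN₀n.trans hN) ω
  have a2 := hXY N' (hN₀n.trans hN') ω
  have a3 := hYY N hN N' hN' ω
  have a4 := norm_sub_le ((X N ω - Y N ω) + (Y N ω - Y N' ω)) (X N' ω - Y N' ω)
  have a5 := norm_add_le (X N ω - Y N ω) (Y N ω - Y N' ω)
  linarith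

end sys

end Pool.TC
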